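import Pool.Agent.MP_b9875a_co.H99.Spec2

/-! Elimination of the part of the flow outside `Z` and `Al`. -/

set_option autoImplicit false

namespace Pool.Agent.MP_b9875a_co.H99.LN

open Finset Function

namespace EM

section cnt

variable {V α : Type} [DecidableEq V] [DecidableEq α] {T T' : Finset α} {f : α → V} {a : α}

lemma cnt_insert (h : a ∉ T) (f : α → V) (v : V) :
    cnt (insert a T) f v = cnt T f v + if f a = v then 1 else 0 := by
  unfold cnt
  rw [filter_insert]
  split_ifs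
  · rw [card_insert_of_notMem fun h' => h (mem_filter.1 h').1]
  · rfl

lemma cnt_erase (h : a ∈ T) (f : α → V) (v : V) :
    cnt (T.erase a) f v + (if f a = v then 1 else 0) = cnt T f v := by
  rw [← cnt_insert (notMem_erase a T), insert_erase h]

lemma cnt_upd (h : a ∉ T) (f : α → V) (w v : V) : cnt T (update f a w) v = cnt T f v := by
  unfold cnt
  congr 1
  exact filter_congr fun b hb => by rw [update_of_ne (by rintro rfl; exact h hb)]

lemma cnt_upd' (h : a ∈ T) (f : α → V) (w v : V) :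
    cnt T (update f a w) v + (if f a = v then 1 else 0) = cnt T f v + if w = v then 1 else 0 := by
  have h1 := cnt_erase h (update f a w) v
  have h2 := cnt_erase h f v
  rw [cnt_upd (notMem_erase a T), update_self] at h1
  omega

omit [DecidableEq α] in
lemma cnt_mono (h : T ⊆ T') (f : α → V) (v : V) : cnt T f v ≤ cnt T' f v :=
  card_le_card (filter_subset_filter _ h)

omit [DecidableEq α] in
lemma cnt_pos {v : V} : 1 ≤ cnt T f v ↔ ∃ a ∈ T, f a = v := by
  unfold cnt
  rw [Nat.succ_le_iff, card_pos]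
  simp [Finset.Nonempty]

lemma cnt_union (h : Disjoint T T') (f : α → V) (v : V) :
    cnt (T ∪ T') f v = cnt T f v + cnt T' f v := by
  unfold cnt
  rw [filter_union, card_union_of_disjoint (disjoint_filter_filter h)]

lemma cnt_ins_le (a : α) (T : Finset α) (f : α → V) (v : V) :
    cnt (insert a T) f v ≤ cnt T f v + if f a = v then 1 else 0 := by
  by_cases h : a ∈ T
  · rw [insert_eq_of_mem h]
    omega
  · rw [cnt_insert h]

/-- One more at `u`. -/
def inc (g : V → ℕ) (u v : V) : ℕ := g v + if u = v then 1 else 0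

/-- One less at `u`. -/
def dec (g : V → ℕ) (u v : V) : ℕ := g v - if u = v then 1 else 0

lemma dec_add {g : V → ℕ} {u : V} (h : 1 ≤ g u) (v : V) :
    dec g u v + (if u = v then 1 else 0) = g v := by
  unfold dec
  split_ifs with e
  · subst e
    omega
  · rfl

lemma sum_inc (g : V → ℕ) (u : V) (Z : Finset V) : ∑ v ∈ Z, inc g u v ≤ ∑ v ∈ Z, g v + 1 := by
  unfold inc
  rw [sum_add_distrib, sum_ite_eq]
  split_ifs <;> omega

lemma out_upd {Z : Finset V} (h : a ∈ T) (h1 : f a ∉ Z) {w : V} (h2 : w ∈ Z) :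
    (T.filter fun b => update f a w b ∉ Z).card + 1 = (T.filter fun b => f b ∉ Z).card := by
  rw [← card_erase_add_one (s := T.filter fun b => f b ∉ Z) (mem_filter.2 ⟨h, h1⟩)]
  congr 2
  ext b
  by_cases e : b = a
  · simp [e, h2]
  · simp [e]

end cnt

variable {V : Type} [DecidableEq V] {m : ℕ} {σ₀ σ σ' : St V} {Z Al : Finset V} {r r2 du : V → ℕ}

omit [DecidableEq V] in
lemma sim_of (ρ : Ob V → Ob V) (h : ∀ o x y, Req m σ' o x y →
    Relation.ReflTransGen (fun a b => ∃ o', ρ o' = o ∧ Req m σ o' a b) x y) : Sim m σ m σ' := by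
  rintro E ⟨own, ho⟩
  refine ⟨fun a b => ρ (own a b), fun o x y hr => ?_⟩
  have h1 := h o x y hr
  clear hr
  induction h1 with
  | refl => exact .refl
  | tail _ h2 ih =>
    obtain ⟨o', e, h3⟩ := h2
    refine ih.trans (Relation.ReflTransGen.mono ?_ _ _ (ho o' _ _ h3))
    exact fun a b h4 => ⟨h4.1, (congrArg ρ h4.2).trans e⟩

omit [DecidableEq V] in
/-- Two old obligations are joined into one new obligation. -/
lemma sim_two (o1 o2 o : Ob V) {x y w : V} (h1 : Req m σ o1 x y) (h2 : Req m σ o2 y w)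
    (h : ∀ o' a b, Req m σ' o' a b → (o' = o ∧ a = x ∧ b = w) ∨ a = b ∨
      (o' ≠ o1 ∧ o' ≠ o2 ∧ Req m σ o' a b)) : Sim m σ m σ' := by
  classical
  refine sim_of (fun o' => if o' = o1 ∨ o' = o2 then o else o') fun o' a b hr => ?_
  rcases h o' a b hr with ⟨rfl, rfl, rfl⟩ | rfl | ⟨e1, e2, h3⟩
  · exact (Relation.ReflTransGen.single ⟨o1, by simp, h1⟩).tail ⟨o2, by simp, h2⟩
  · exact .refl
  · exact .single ⟨o', by simp [e1, e2], h3⟩

omit [DecidableEq V] in
lemma sim_sub (h : ∀ o a b, Req m σ' o a b → Req m σ o a b) : Sim m σ m σ' :=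
  fun _ ⟨own, ho⟩ => ⟨own, fun o x y hr => ho o x y (h o x y hr)⟩

/-- The provenance of the arcs of the flow. -/
def Pv (σ₀ : St V) (H : Finset (V × V)) (hd : V × V → V) (acc : V → ℕ) : Prop :=
  ∃ (pv : V × V → Finset (V × V)) (A : Finset (V × V)),
    (∀ e ∈ H, e ∈ pv e ∧ pv e ⊆ σ₀.H ∧ pv e ⊆ insert e A ∧
      (∀ v, cnt (pv e) Prod.fst v + (if hd e = v then 1 else 0) =
        cnt (pv e) σ₀.hd v + if e.1 = v then 1 else 0) ∧ (hd e = σ₀.hd e ∨ 2 ≤ (pv e).card)) ∧
    (∀ e ∈ H, ∀ e' ∈ H, e ≠ e' → Disjoint (pv e) (pv e')) ∧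
    ∀ v, cnt A Prod.fst v + acc v ≤ σ₀.acc v

lemma Pv.mono {H H' : Finset (V × V)} {hd : V × V → V} {acc acc' : V → ℕ} (h : Pv σ₀ H hd acc)
    (h1 : H' ⊆ H) (h2 : ∀ v, acc' v ≤ acc v) : Pv σ₀ H' hd acc' := by
  obtain ⟨pv, A, a, b, c⟩ := h
  exact ⟨pv, A, fun e he => a e (h1 he), fun e he e' he' => b e (h1 he) e' (h1 he'),
    fun v => (Nat.add_le_add_left (h2 v) _).trans (c v)⟩

lemma Pv.merge {H : Finset (V × V)} {hd : V × V → V} {acc : V → ℕ} (h : Pv σ₀ H hd acc)
    {e0 e1 : V × V} (h0 : e0 ∈ H) (h1 : e1 ∈ H) (hne : e0 ≠ e1) (he : hd e0 = e1.1)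
    (ha : 1 ≤ acc e1.1) : Pv σ₀ (H.erase e1) (update hd e0 (hd e1)) (dec acc e1.1) := by
  obtain ⟨pv, A, a, b, c⟩ := h
  obtain ⟨a1, a2, a3, a4, -⟩ := a e0 h0
  obtain ⟨b1, b2, b3, b4, -⟩ := a e1 h1
  have hdj := b e0 h0 e1 h1 hne
  refine ⟨update pv e0 (pv e0 ∪ pv e1), insert e1 A, fun e he' => ?_, fun e he' e' he'' hn => ?_,
    fun v => ?_⟩
  · by_cases e2 : e = e0
    · subst e2
      rw [update_self, update_self]
      refine ⟨mem_union_left _ a1, union_subset a2 b2, union_subset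
        (a3.trans (insert_subset_insert _ (subset_insert _ _))) (b3.trans (subset_insert _ _)),
        fun v => ?_, Or.inr ?_⟩
      · have := a4 v
        have := b4 v
        rw [he] at *
        rw [cnt_union hdj, cnt_union hdj]
        omega
      · exact one_lt_card.2 ⟨e, mem_union_left _ a1, e1, mem_union_right _ b1, hne⟩
    · rw [update_of_ne e2, update_of_ne e2]
      obtain ⟨c1, c2, c3, c4⟩ := a e (mem_of_mem_erase he')
      exact ⟨c1, c2, c3.trans (insert_subset_insert _ (subset_insert _ _)), c4⟩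
  · obtain ⟨n1, m1⟩ := mem_erase.1 he'
    obtain ⟨n2, m2⟩ := mem_erase.1 he''
    by_cases e2 : e = e0
    · subst e2
      rw [update_self, update_of_ne hn.symm]
      exact disjoint_union_left.2 ⟨b _ m1 _ m2 hn, b _ h1 _ m2 n2.symm⟩
    · rw [update_of_ne e2]
      by_cases e3 : e' = e0
      · subst e3
        rw [update_self]
        exact disjoint_union_right.2 ⟨b _ m1 _ m2 hn, b _ m1 _ h1 n1⟩
      · rw [update_of_ne e3]
        exact b _ m1 _ m2 hn
  · have := cnt_ins_le e1 A Prod.fst v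
    have := c v
    have := dec_add ha v
    omega

/-- The invariant of the elimination. -/
structure Iv (m : ℕ) (σ₀ : St V) (Z Al : Finset V) (σ : St V) (r r2 du : V → ℕ) : Prop where
  fl : Fl σ
  sim : Sim m σ₀ m σ
  eS : σ.S = σ₀.S
  eD : σ.D = σ₀.D
  ec : σ.c = σ₀.c
  emu : σ.mu = σ₀.mu
  ebe : σ.be = σ₀.be
  eu : σ.u = σ₀.u
  eUn : σ.Un = σ₀.Un
  ez : σ.z = σ₀.z
  Hs : σ.H ⊆ σ₀.H
  hdD : ∀ a, a ∉ σ₀.H → σ.hd a = σ₀.hd a
  fr : σ.T \ σ.B = σ₀.T \ σ₀.B
  Bs : σ.B ⊆ σ₀.B
  bsf : ∀ τ, τ ∉ σ₀.B → σ.bs τ = σ₀.bs τ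
  Ts : σ.T ⊆ σ₀.T
  ogU : ∀ p ∈ σ₀.Un, σ.og p = σ₀.og p
  dga : ∀ v, dga σ.dg v = dga σ₀.dg v
  dgZ : ∀ x y, σ.dg = some (x, y) → x ∈ Z
  accle : ∀ v, σ.acc v + r v ≤ σ₀.acc v
  out : ∀ v ∈ Al, cnt σ₀.H Prod.fst v ≤ cnt σ.H Prod.fst v + r v + du v
  rr : ∀ v, r v ≤ r2 v
  Bc : ∀ v ∈ Z, cnt σ.B σ.bs v ≤ cnt σ₀.B σ₀.bs v + r2 v
  sr : ∑ v ∈ Z, r2 v + (σ.B.filter (fun τ => σ.bs τ ∉ Z)).card ≤
    (σ₀.B.filter (fun τ => σ₀.bs τ ∉ Z)).card
  sd : ∑ v ∈ Z, du v + σ.Need.card ≤ σ₀.Need.card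
  Ns : σ.Need ⊆ σ₀.Need
  tk : ∀ i, cnt σ₀.T Prod.fst i + (if i ∈ σ.Need then 1 else 0) ≤
    cnt σ.T Prod.fst i + (if i ∈ σ₀.Need then 1 else 0)
  pv : Pv σ₀ σ.H σ.hd σ.acc

/-- The measure. -/
def ms (Z : Finset V) (σ : St V) : ℕ :=
  2 * σ.H.card + σ.Ar.card + (σ.B.filter (fun τ => σ.bs τ ∉ Z)).card

/-- A step is possible. -/
def Nx (m : ℕ) (σ₀ : St V) (Z Al : Finset V) (σ : St V) : Prop :=
  ∃ σ' r r2 du, Iv m σ₀ Z Al σ' r r2 du ∧ ms Z σ' < ms Z σ

/-- An arrived pebble meets a token. -/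
def fin (σ : St V) (p : ℕ) (τ : ℕ × ℕ) : St V :=
  { σ with T := σ.T.erase τ, B := σ.B.erase τ, Need := σ.Need.erase τ.1, Ar := σ.Ar.erase p }

/-- A connected pebble walks along an arc. -/
def adv (σ : St V) (p : ℕ) (e : V × V) : St V :=
  { σ with H := σ.H.erase e, Cn := σ.Cn.erase p, Ar := insert p σ.Ar, og := update σ.og p (σ.hd e) }

lemma fin_fl (h : Fl σ) {p : ℕ} {τ : ℕ × ℕ} (hp : p ∈ σ.Ar) (hτ : τ ∈ σ.B)
    (e : σ.og p = σ.bs τ) : Fl (fin σ p τ) :=
  { h with
    BT := erase_subset_erase _ h.BT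
    lab := fun τ' h' => mem_erase.2 ⟨fun e' => (mem_erase.1 h').1
      (h.inj _ (mem_of_mem_erase h') _ hτ e'), h.lab _ (mem_of_mem_erase h')⟩
    inj := fun a ha b hb => h.inj a (mem_of_mem_erase ha) b (mem_of_mem_erase hb)
    d2 := h.d2.mono_right (erase_subset _ _)
    d3 := h.d3.mono_right (erase_subset _ _)
    nd := by
      have := card_erase_add_one (h.lab τ hτ)
      have := card_erase_add_one hp
      have := h.nd
      simp only [fin]
      omega
    nb := by
      have := card_erase_add_one hτ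
      have := card_erase_add_one hp
      have := h.nb
      simp only [fin]
      omega
    cin := fun v => by
      have := cnt_erase hτ σ.bs v
      have := cnt_erase hp σ.og v
      have := h.cin v
      rw [e] at *
      simp only [fin]
      omega }

lemma fin_sim (h : Fl σ) {p : ℕ} {τ : ℕ × ℕ} (hp : p ∈ σ.Ar) (hτ : τ ∈ σ.B)
    (e : σ.og p = σ.bs τ) : Sim m σ m (fin σ p τ) := by
  refine sim_two (.peb p) (.tok τ) (.done (m - 1) τ.1) (x := σ.z (m - 1)) (y := σ.og p)
    (w := σ.z τ.1) ⟨Or.inr (Or.inr hp), rfl, rfl⟩ ⟨h.BT hτ, e, rfl⟩ fun o a b hr => ?_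
  cases o with
  | arc c => exact Or.inr (Or.inr ⟨nofun, nofun, hr⟩)
  | dang => exact Or.inr (Or.inr ⟨nofun, nofun, hr⟩)
  | tok c => exact Or.inr (Or.inr ⟨nofun, fun e' => (mem_erase.1 hr.1).1 (Ob.tok.inj e'),
      mem_of_mem_erase hr.1, hr.2⟩)
  | peb c =>
    refine Or.inr (Or.inr ⟨fun e' => ?_, nofun,
      hr.1.imp id (Or.imp id mem_of_mem_erase), hr.2⟩)
    obtain rfl := Ob.peb.inj e'
    rcases hr.1 with h1 | h1 | h1
    exacts [disjoint_left.1 h.d2 h1 hp, disjoint_left.1 h.d3 h1 hp, notMem_erase _ _ h1]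
  | done j i =>
    obtain ⟨h1, h2, h3, rfl, rfl⟩ := hr
    by_cases h4 : j + 1 < m ∨ i ∉ σ.Need
    · exact Or.inr (Or.inr ⟨nofun, nofun, h1, h2, h4, rfl, rfl⟩)
    · rw [not_or, not_not] at h4
      obtain rfl : i = τ.1 := by
        by_contra h5
        exact (h3.resolve_left h4.1) (mem_erase.2 ⟨h5, h4.2⟩)
      obtain rfl : j = m - 1 := by omega
      exact Or.inl ⟨rfl, rfl, rfl⟩

lemma adv_fl (h : Fl σ) {p : ℕ} {e : V × V} (hp : p ∈ σ.Cn) (he : e ∈ σ.H) (h1 : σ.og p = e.1) :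
    Fl (adv σ p e) :=
  have hA : p ∉ σ.Ar := disjoint_left.1 h.d3 hp
  { h with
    dj := h.dj.mono_right (erase_subset _ _)
    d1 := h.d1.mono_right (erase_subset _ _)
    d2 := disjoint_insert_right.2 ⟨fun h2 => disjoint_left.1 h.d1 h2 hp, h.d2⟩
    d3 := disjoint_insert_right.2 ⟨notMem_erase _ _, h.d3.mono_left (erase_subset _ _)⟩
    nd := by
      have := card_insert_of_notMem hA
      have := card_erase_add_one hp
      have := h.nd
      simp only [adv]
      omega
    nb := by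
      have := card_insert_of_notMem hA
      have := card_erase_add_one hp
      have := h.nb
      simp only [adv]
      omega
    cin := fun v => by
      have := cnt_erase he σ.hd v
      have := h.cin v
      simp only [adv]
      rw [cnt_insert hA, cnt_upd hA, update_self]
      omega
    cout := fun v => by
      have := cnt_erase he Prod.fst v
      have := cnt_erase hp σ.og v
      have := h.cout v
      rw [h1] at *
      simp only [adv]
      rw [cnt_upd (notMem_erase _ _)]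
      omega }

lemma adv_sim {p : ℕ} {e : V × V} (h : Fl σ) (hp : p ∈ σ.Cn) (he : e ∈ σ.H) (h1 : σ.og p = e.1) :
    Sim m σ m (adv σ p e) := by
  refine sim_two (.peb p) (.arc e) (.peb p) (x := σ.z (m - 1)) (y := σ.og p)
    (w := σ.hd e) ⟨Or.inr (Or.inl hp), rfl, rfl⟩ ⟨Or.inr he, h1, rfl⟩ fun o a b hr => ?_
  cases o with
  | tok c => exact Or.inr (Or.inr ⟨nofun, nofun, hr⟩)
  | dang => exact Or.inr (Or.inr ⟨nofun, nofun, hr⟩)
  | done j i => exact Or.inr (Or.inr ⟨nofun, nofun, hr⟩)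
  | arc c =>
    refine Or.inr (Or.inr ⟨nofun, fun e' => ?_, hr.1.imp id mem_of_mem_erase, hr.2⟩)
    obtain rfl := Ob.arc.inj e'
    exact hr.1.elim (fun h2 => disjoint_left.1 h.dj h2 he) (notMem_erase _ _)
  | peb c =>
    by_cases e' : c = p
    · subst e'
      exact Or.inl ⟨rfl, hr.2.1, hr.2.2.trans (update_self ..)⟩
    · exact Or.inr (Or.inr ⟨fun e2 => e' (Ob.peb.inj e2), nofun,
        hr.1.imp id (Or.imp mem_of_mem_erase fun h2 => (mem_insert.1 h2).resolve_left e'),
        hr.2.1, hr.2.2.trans (update_of_ne e' ..)⟩)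

namespace Iv

variable (h : Iv m σ₀ Z Al σ r r2 du)

include h

lemma fin {p : ℕ} {τ : ℕ × ℕ} (hp : p ∈ σ.Ar) (hτ : τ ∈ σ.B) (e : σ.og p = σ.bs τ) (u : V) :
    Iv m σ₀ Z Al (fin σ p τ) r r2 (inc du u) :=
  { h with
    fl := fin_fl h.fl hp hτ e
    sim := fun E hE => fin_sim h.fl hp hτ e E (h.sim E hE)
    fr := by
      rw [← h.fr]
      ext a
      simp only [EM.fin, mem_sdiff, mem_erase]
      exact ⟨fun a => ⟨a.1.2, fun b => a.2 ⟨a.1.1, b⟩⟩,
        fun b => ⟨⟨fun e => b.2 (e ▸ hτ), b.1⟩, fun c => b.2 c.2⟩⟩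
    Bs := (erase_subset _ _).trans h.Bs
    Ts := (erase_subset _ _).trans h.Ts
    out := fun v hv => (h.out v hv).trans (Nat.add_le_add_left (Nat.le_add_right _ _) _)
    Bc := fun v hv => (cnt_mono (erase_subset _ _) _ v).trans (h.Bc v hv)
    sr := (Nat.add_le_add_left (card_le_card (filter_subset_filter _ (erase_subset _ _))) _).trans
      h.sr
    sd := by
      have := card_erase_add_one (h.fl.lab τ hτ)
      have := sum_inc du u Z
      have := h.sd
      simp only [EM.fin]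
      omega
    Ns := (erase_subset _ _).trans h.Ns
    tk := fun i => by
      have h1 := cnt_erase (h.fl.BT hτ) Prod.fst i
      have h2 := h.tk i
      have h3 := h.fl.lab τ hτ
      simp only [EM.fin, mem_erase]
      by_cases e : τ.1 = i
      · subst e
        simp only [h3, if_true, ne_eq, not_true, false_and, if_false] at h1 h2 ⊢
        omega
      · simp only [e, if_false, ne_eq, Ne.symm e, not_false_iff, true_and] at h1 ⊢
        omega }

lemma e0a {p : ℕ} {τ : ℕ × ℕ} (hp : p ∈ σ.Ar) (hτ : τ ∈ σ.B) (e : σ.og p = σ.bs τ) :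
    Nx m σ₀ Z Al σ := by
  refine ⟨_, _, _, _, h.fin hp hτ e (σ.og p), ?_⟩
  have := card_erase_add_one hp
  have := card_le_card (filter_subset_filter (fun τ => σ.bs τ ∉ Z) (erase_subset τ σ.B))
  dsimp only [ms, EM.fin]
  omega

lemma e0b {p : ℕ} (hp : p ∈ σ.Ar) (ha : 1 ≤ σ.acc (σ.og p)) : Nx m σ₀ Z Al σ := by
  have hC : p ∉ σ.Cn := fun h1 => disjoint_left.1 h.fl.d3 h1 hp
  have c1 := card_erase_add_one hp
  have c2 := card_insert_of_notMem hC
  refine ⟨{ σ with Ar := σ.Ar.erase p, Cn := insert p σ.Cn, acc := dec σ.acc (σ.og p) }, r, r2, du,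
    { h with
      fl := { h.fl with
        d1 := disjoint_insert_right.2 ⟨fun h2 => disjoint_left.1 h.fl.d2 h2 hp, h.fl.d1⟩
        d2 := h.fl.d2.mono_right (erase_subset _ _)
        d3 := disjoint_insert_left.2 ⟨notMem_erase _ _, h.fl.d3.mono_right (erase_subset _ _)⟩
        nd := by have := h.fl.nd; dsimp only; omega
        nb := by have := h.fl.nb; dsimp only; omega
        cin := fun v => by
          have := cnt_erase hp σ.og v
          have := dec_add ha v
          have := h.fl.cin v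
          dsimp only
          omega
        cout := fun v => by
          have := cnt_insert hC σ.og v
          have := dec_add ha v
          have := h.fl.cout v
          dsimp only
          omega }
      sim := fun E hE => sim_sub (fun o a b hr => ?_) E (h.sim E hE)
      accle := fun v => (Nat.add_le_add_right (Nat.sub_le _ _) _).trans (h.accle v)
      pv := h.pv.mono subset_rfl fun v => Nat.sub_le _ _ }, ?_⟩
  · cases o with
    | peb c =>
      refine ⟨hr.1.imp id ?_, hr.2⟩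
      rintro (h1 | h1)
      · rcases mem_insert.1 h1 with rfl | h1
        exacts [Or.inr hp, Or.inl h1]
      · exact Or.inr (mem_of_mem_erase h1)
    | _ => exact hr
  · simp only [ms]
    omega

lemma adv {p : ℕ} {e : V × V} (hp : p ∈ σ.Cn) (he : e ∈ σ.H) (h1 : σ.og p = e.1) :
    Iv m σ₀ Z (Al.erase e.1) (adv σ p e) r r2 du :=
  { h with
    fl := adv_fl h.fl hp he h1
    sim := fun E hE => adv_sim h.fl hp he h1 E (h.sim E hE)
    Hs := (erase_subset _ _).trans h.Hs
    ogU := fun q hq => (update_of_ne (by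
      rintro rfl
      exact disjoint_left.1 h.fl.d1 (h.eUn ▸ hq) hp) ..).trans (h.ogU q hq)
    out := fun v hv => by
      have h2 := cnt_erase he Prod.fst v
      have := h.out v (mem_of_mem_erase hv)
      rw [if_neg (mem_erase.1 hv).1.symm] at h2
      simp only [EM.adv]
      omega
    pv := h.pv.mono (erase_subset _ _) fun v => le_rfl }

lemma e1 {p : ℕ} (hp : p ∈ σ.Cn) (hA : σ.og p ∉ Al) : Nx m σ₀ Z Al σ := by
  obtain ⟨e, he, h1⟩ := cnt_pos.1 (show 1 ≤ cnt σ.H Prod.fst (σ.og p) by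
    have := h.fl.cout (σ.og p)
    have := (cnt_pos (f := σ.og)).2 ⟨p, hp, rfl⟩
    omega)
  have h2 := h.adv hp he h1.symm
  rw [erase_eq_of_notMem (h1 ▸ hA)] at h2
  refine ⟨_, _, _, _, h2, ?_⟩
  have := card_erase_add_one he
  have := card_insert_le p σ.Ar
  dsimp only [ms, EM.adv]
  omega

lemma e6 {p : ℕ} {e : V × V} {τ : ℕ × ℕ} (hp : p ∈ σ.Cn) (he : e ∈ σ.H) (h1 : σ.og p = e.1)
    (hτ : τ ∈ σ.B) (h2 : σ.bs τ = σ.hd e) : Nx m σ₀ Z Al σ := by
  have h3 := (h.adv hp he h1).fin (p := p) (τ := τ) (mem_insert_self _ _) hτ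
    ((update_self ..).trans h2.symm) e.1
  refine ⟨_, _, _, _, { h3 with out := fun v hv => ?_ }, ?_⟩
  · have := cnt_erase he Prod.fst v
    have := h.out v hv
    simp only [EM.fin, EM.adv, inc]
    omega
  · have := card_erase_add_one he
    have := card_insert_le p σ.Ar
    have := card_erase_le (s := insert p σ.Ar) (a := p)
    have := card_le_card (filter_subset_filter (fun τ => σ.bs τ ∉ Z) (erase_subset τ σ.B))
    dsimp only [ms, EM.fin, EM.adv]
    omega

omit h in
lemma arc_ne (hf : Fl σ) {e c : V × V} (he : e ∈ σ.H) (hc : c ∈ σ.D ∨ c ∈ σ.H.erase e) :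
    Ob.arc c ≠ Ob.arc e := fun e' => by
  obtain rfl := Ob.arc.inj e'
  exact hc.elim (fun h2 => disjoint_left.1 hf.dj h2 he) (notMem_erase _ _)

lemma out_erase {e : V × V} (he : e ∈ σ.H) (hA : e.1 ∉ Al) (v : V) (hv : v ∈ Al) :
    cnt σ₀.H Prod.fst v ≤ cnt (σ.H.erase e) Prod.fst v + r v + du v := by
  have h2 := cnt_erase he Prod.fst v
  have := h.out v hv
  rw [if_neg (by rintro rfl; exact hA hv)] at h2
  omega

lemma e3 {e : V × V} (he : e ∈ σ.H) (hA : e.1 ∉ Al) (ha : 1 ≤ σ.acc e.1) {x : V}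
    (hd : σ.dg = some (x, e.1)) : Nx m σ₀ Z Al σ := by
  refine ⟨{ σ with H := σ.H.erase e, acc := dec σ.acc e.1, dg := some (x, σ.hd e) }, r, r2, du,
    { h with
      fl := { h.fl with
        dj := h.fl.dj.mono_right (erase_subset _ _)
        nb := by have := h.fl.nb; rw [hd] at this; exact this
        cin := fun v => by
          have := cnt_erase he σ.hd v
          have := dec_add ha v
          have h1 := h.fl.cin v
          rw [hd] at h1
          dsimp only [dgb] at h1 ⊢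
          omega
        cout := fun v => by
          have := cnt_erase he Prod.fst v
          have := dec_add ha v
          have := h.fl.cout v
          dsimp only
          omega }
      sim := fun E hE => sim_two .dang (.arc e) .dang (x := x) (y := e.1) (w := σ.hd e) hd
        ⟨Or.inr he, rfl, rfl⟩ (fun o a b hr => ?_) E (h.sim E hE)
      Hs := (erase_subset _ _).trans h.Hs
      dga := fun v => by rw [← h.dga, hd]; rfl
      dgZ := fun a b e' => by
        have e1 : x = a := (Prod.ext_iff.1 (Option.some.inj e')).1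
        exact h.dgZ a e.1 (e1 ▸ hd)
      accle := fun v => (Nat.add_le_add_right (Nat.sub_le _ _) _).trans (h.accle v)
      out := h.out_erase he hA
      pv := h.pv.mono (erase_subset _ _) fun v => Nat.sub_le _ _ }, ?_⟩
  · cases o with
    | arc c => exact Or.inr (Or.inr ⟨nofun, arc_ne h.fl he hr.1,
        hr.1.imp id mem_of_mem_erase, hr.2⟩)
    | dang =>
      obtain ⟨rfl, rfl⟩ := Prod.ext_iff.1 (Option.some.inj hr)
      exact Or.inl ⟨rfl, rfl, rfl⟩
    | _ => exact Or.inr (Or.inr ⟨nofun, nofun, hr⟩)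
  · have := card_erase_add_one he
    simp only [ms]
    omega

lemma e2a {e : V × V} (he : e ∈ σ.H) (hA : e.1 ∉ Al) (ha : 1 ≤ σ.acc e.1) (hl : σ.hd e = e.1) :
    Nx m σ₀ Z Al σ := by
  refine ⟨{ σ with H := σ.H.erase e, acc := dec σ.acc e.1 }, r, r2, du,
    { h with
      fl := { h.fl with
        dj := h.fl.dj.mono_right (erase_subset _ _)
        cin := fun v => by
          have h1 := cnt_erase he σ.hd v
          have := dec_add ha v
          have := h.fl.cin v
          rw [hl] at h1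
          dsimp only
          omega
        cout := fun v => by
          have := cnt_erase he Prod.fst v
          have := dec_add ha v
          have := h.fl.cout v
          dsimp only
          omega }
      sim := fun E hE => sim_sub (fun o a b hr => ?_) E (h.sim E hE)
      Hs := (erase_subset _ _).trans h.Hs
      accle := fun v => (Nat.add_le_add_right (Nat.sub_le _ _) _).trans (h.accle v)
      out := h.out_erase he hA
      pv := h.pv.mono (erase_subset _ _) fun v => Nat.sub_le _ _ }, ?_⟩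
  · cases o with
    | arc c => exact ⟨hr.1.imp id mem_of_mem_erase, hr.2⟩
    | _ => exact hr
  · have := card_erase_add_one he
    simp only [ms]
    omega

lemma e2b {e e0 : V × V} (he : e ∈ σ.H) (hA : e.1 ∉ Al) (ha : 1 ≤ σ.acc e.1) (h0 : e0 ∈ σ.H)
    (hne : e0 ≠ e) (hl : σ.hd e0 = e.1) : Nx m σ₀ Z Al σ := by
  refine ⟨{ σ with H := σ.H.erase e, acc := dec σ.acc e.1, hd := update σ.hd e0 (σ.hd e) },
    r, r2, du,
    { h with
      fl := { h.fl with
        dj := h.fl.dj.mono_right (erase_subset _ _)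
        cin := fun v => by
          have := cnt_erase he σ.hd v
          have h1 := cnt_upd' (mem_erase.2 ⟨hne, h0⟩) σ.hd (σ.hd e) v
          have := dec_add ha v
          have := h.fl.cin v
          rw [hl] at h1
          dsimp only
          omega
        cout := fun v => by
          have := cnt_erase he Prod.fst v
          have := dec_add ha v
          have := h.fl.cout v
          dsimp only
          omega }
      sim := fun E hE => sim_two (.arc e0) (.arc e) (.arc e0) (x := e0.1) (y := e.1) (w := σ.hd e)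
        ⟨Or.inr h0, rfl, hl.symm⟩ ⟨Or.inr he, rfl, rfl⟩ (fun o a b hr => ?_) E (h.sim E hE)
      Hs := (erase_subset _ _).trans h.Hs
      hdD := fun a ha => (update_of_ne (by rintro rfl; exact ha (h.Hs h0)) ..).trans (h.hdD a ha)
      accle := fun v => (Nat.add_le_add_right (Nat.sub_le _ _) _).trans (h.accle v)
      out := h.out_erase he hA
      pv := h.pv.merge h0 he hne hl ha }, ?_⟩
  · cases o with
    | arc c =>
      by_cases e' : c = e0
      · subst e'
        exact Or.inl ⟨rfl, hr.2.1, hr.2.2.trans (update_self ..)⟩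
      · exact Or.inr (Or.inr ⟨fun e2 => e' (Ob.arc.inj e2), arc_ne h.fl he hr.1,
          hr.1.imp id mem_of_mem_erase, hr.2.1, hr.2.2.trans (update_of_ne e' ..)⟩)
    | _ => exact Or.inr (Or.inr ⟨nofun, nofun, hr⟩)
  · have := card_erase_add_one he
    simp only [ms]
    omega

lemma Bc_upd {τ : ℕ × ℕ} (hτ : τ ∈ σ.B) (u v : V) (hv : v ∈ Z) :
    cnt σ.B (update σ.bs τ u) v ≤ cnt σ₀.B σ₀.bs v + inc r2 u v := by
  have := cnt_upd' hτ σ.bs u v
  have := h.Bc v hv
  unfold inc
  omega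

lemma sr_upd {τ : ℕ × ℕ} (hτ : τ ∈ σ.B) (h1 : σ.bs τ ∉ Z) {u : V} (hu : u ∈ Z) :
    ∑ v ∈ Z, inc r2 u v + (σ.B.filter (fun τ' => update σ.bs τ u τ' ∉ Z)).card ≤
      (σ₀.B.filter (fun τ => σ₀.bs τ ∉ Z)).card := by
  have := out_upd hτ h1 hu
  have := sum_inc r2 u Z
  have := h.sr
  omega

lemma e4 {e : V × V} {τ : ℕ × ℕ} (he : e ∈ σ.H) (hZ : e.1 ∈ Z) (ha : 1 ≤ σ.acc e.1)
    (hτ : τ ∈ σ.B) (h1 : σ.bs τ = σ.hd e) (h2 : σ.bs τ ∉ Z) : Nx m σ₀ Z Al σ := by
  refine ⟨{ σ with H := σ.H.erase e, acc := dec σ.acc e.1, bs := update σ.bs τ e.1 },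
    inc r e.1, inc r2 e.1, du,
    { h with
      fl := { h.fl with
        dj := h.fl.dj.mono_right (erase_subset _ _)
        cin := fun v => by
          have := cnt_erase he σ.hd v
          have h3 := cnt_upd' hτ σ.bs e.1 v
          have := dec_add ha v
          have := h.fl.cin v
          rw [h1] at h3
          dsimp only
          omega
        cout := fun v => by
          have := cnt_erase he Prod.fst v
          have := dec_add ha v
          have := h.fl.cout v
          dsimp only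
          omega }
      sim := fun E hE => sim_two (.arc e) (.tok τ) (.tok τ) (x := e.1) (y := σ.hd e) (w := σ.z τ.1)
        ⟨Or.inr he, rfl, rfl⟩ ⟨h.fl.BT hτ, h1.symm, rfl⟩ (fun o a b hr => ?_) E (h.sim E hE)
      Hs := (erase_subset _ _).trans h.Hs
      bsf := fun a ha => (update_of_ne (by rintro rfl; exact ha (h.Bs hτ)) ..).trans (h.bsf a ha)
      accle := fun v => by
        have := dec_add ha v
        have := h.accle v
        dsimp only [inc]
        omega
      out := fun v hv => by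
        have := cnt_erase he Prod.fst v
        have := h.out v hv
        dsimp only [inc]
        omega
      rr := fun v => Nat.add_le_add_right (h.rr v) _
      Bc := h.Bc_upd hτ _
      sr := h.sr_upd hτ h2 hZ
      pv := h.pv.mono (erase_subset _ _) fun v => Nat.sub_le _ _ }, ?_⟩
  · cases o with
    | arc c => exact Or.inr (Or.inr ⟨arc_ne h.fl he hr.1, nofun,
        hr.1.imp id mem_of_mem_erase, hr.2⟩)
    | tok c =>
      by_cases e' : c = τ
      · subst e'
        exact Or.inl ⟨rfl, hr.2.1.trans (update_self ..), hr.2.2⟩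
      · exact Or.inr (Or.inr ⟨nofun, fun e2 => e' (Ob.tok.inj e2), hr.1,
          hr.2.1.trans (update_of_ne e' ..), hr.2.2⟩)
    | _ => exact Or.inr (Or.inr ⟨nofun, nofun, hr⟩)
  · have := card_erase_add_one he
    have := out_upd hτ h2 hZ
    simp only [ms]
    omega

lemma e5 {τ : ℕ × ℕ} {x : V} (hτ : τ ∈ σ.B) (hd : σ.dg = some (x, σ.bs τ)) (h2 : σ.bs τ ∉ Z) :
    Nx m σ₀ Z Al σ := by
  have hZ := h.dgZ _ _ hd
  refine ⟨{ σ with dg := some (x, x), bs := update σ.bs τ x }, r, inc r2 x, du,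
    { h with
      fl := { h.fl with
        nb := by have := h.fl.nb; rw [hd] at this; exact this
        cin := fun v => by
          have := cnt_upd' hτ σ.bs x v
          have h1 := h.fl.cin v
          rw [hd] at h1
          dsimp only [dgb] at h1 ⊢
          omega }
      sim := fun E hE => sim_two .dang (.tok τ) (.tok τ) (x := x) (y := σ.bs τ) (w := σ.z τ.1)
        hd ⟨h.fl.BT hτ, rfl, rfl⟩ (fun o a b hr => ?_) E (h.sim E hE)
      bsf := fun a ha => (update_of_ne (by rintro rfl; exact ha (h.Bs hτ)) ..).trans (h.bsf a ha)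
      dga := fun v => by rw [← h.dga, hd]; rfl
      dgZ := fun a b e' => (show x = a from (Prod.ext_iff.1 (Option.some.inj e')).1) ▸ hZ
      rr := fun v => (h.rr v).trans (Nat.le_add_right _ _)
      Bc := h.Bc_upd hτ _
      sr := h.sr_upd hτ h2 hZ }, ?_⟩
  · cases o with
    | dang =>
      obtain ⟨rfl, rfl⟩ := Prod.ext_iff.1 (Option.some.inj hr)
      exact Or.inr (Or.inl rfl)
    | tok c =>
      by_cases e' : c = τ
      · subst e'
        exact Or.inl ⟨rfl, hr.2.1.trans (update_self ..), hr.2.2⟩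
      · exact Or.inr (Or.inr ⟨nofun, fun e2 => e' (Ob.tok.inj e2), hr.1,
          hr.2.1.trans (update_of_ne e' ..), hr.2.2⟩)
    | _ => exact Or.inr (Or.inr ⟨nofun, nofun, hr⟩)
  · have := out_upd hτ h2 hZ
    simp only [ms]
    omega

omit h in
lemma dgb_pos {d : Option (V × V)} {v : V} : 1 ≤ dgb d v ↔ ∃ x, d = some (x, v) := by
  rcases d with _ | ⟨a, b⟩
  · simp [dgb]
  · by_cases e : b = v <;> simp [dgb, e]

/-- If no step is possible the end conditions hold. -/
lemma stop (hA : Al ⊆ Z) (hn : ¬Nx m σ₀ Z Al σ) : El σ₀ σ Z Al r r2 du := by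
  have ar : σ.Ar = ∅ := eq_empty_of_forall_notMem fun p hp => by
    have h1 := h.fl.cin (σ.og p)
    have := (cnt_pos (f := σ.og)).2 ⟨p, hp, rfl⟩
    by_cases h2 : 1 ≤ σ.acc (σ.og p)
    · exact hn (h.e0b hp h2)
    · obtain ⟨τ, hτ, e⟩ := cnt_pos.1 (show 1 ≤ cnt σ.B σ.bs (σ.og p) by omega)
      exact hn (h.e0a hp hτ e.symm)
  have cin : ∀ v, cnt σ.H σ.hd v + dgb σ.dg v = cnt σ.B σ.bs v + σ.acc v := fun v => by
    have := h.fl.cin v
    rwa [ar] at this
  have Cin : ∀ p ∈ σ.Cn, σ.og p ∈ Al := fun p hp => by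
    by_contra h1
    exact hn (h.e1 hp h1)
  have ac : ∀ v, v ∉ Al → σ.acc v = 0 := fun v hv => by
    by_contra h1
    have := h.fl.cout v
    obtain ⟨e, he, rfl⟩ := cnt_pos.1 (show 1 ≤ cnt σ.H Prod.fst v by omega)
    by_cases h2 : 1 ≤ dgb σ.dg e.1
    · obtain ⟨x, hx⟩ := dgb_pos.1 h2
      exact hn (h.e3 he hv (by omega) hx)
    · have := cin e.1
      obtain ⟨e0, h0, hl⟩ := cnt_pos.1 (show 1 ≤ cnt σ.H σ.hd e.1 by omega)
      by_cases h3 : e0 = e
      · exact hn (h.e2a he hv (by omega) (h3 ▸ hl))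
      · exact hn (h.e2b he hv (by omega) h0 h3 hl)
  have fn : ∀ e ∈ σ.H, cnt σ.Cn σ.og e.1 = 0 ∨ cnt σ.B σ.bs (σ.hd e) = 0 := fun e he => by
    by_contra h1
    obtain ⟨p, hp, e1⟩ := cnt_pos.1 (show 1 ≤ cnt σ.Cn σ.og e.1 by omega)
    obtain ⟨τ, hτ, e2⟩ := cnt_pos.1 (show 1 ≤ cnt σ.B σ.bs (σ.hd e) by omega)
    exact hn (h.e6 hp he e1 hτ e2)
  have Hin : ∀ e ∈ σ.H, e.1 ∈ Al ∧ σ.hd e ∈ Z := fun e he => by
    have h1 := h.fl.cout e.1
    have h2 := (cnt_pos (f := Prod.fst)).2 ⟨e, he, rfl⟩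
    have h3 : e.1 ∈ Al := by
      by_contra h3
      have := ac _ h3
      obtain ⟨p, hp, e1⟩ := cnt_pos.1 (show 1 ≤ cnt σ.Cn σ.og e.1 by omega)
      exact h3 (e1 ▸ Cin p hp)
    refine ⟨h3, ?_⟩
    by_contra h4
    have := ac _ fun h5 => h4 (hA h5)
    have := cin (σ.hd e)
    have := (cnt_pos (f := σ.hd)).2 ⟨e, he, rfl⟩
    have := fn e he
    obtain ⟨τ, hτ, e2⟩ := cnt_pos.1 (show 1 ≤ cnt σ.B σ.bs (σ.hd e) by omega)
    exact hn (h.e4 he (hA h3) (by omega) hτ e2 (e2 ▸ h4))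
  have dgin : ∀ x y, σ.dg = some (x, y) → x ∈ Z ∧ y ∈ Z := fun x y hd => by
    refine ⟨h.dgZ x y hd, ?_⟩
    by_contra h4
    have := ac _ fun h5 => h4 (hA h5)
    have := cin y
    have := dgb_pos.2 ⟨x, hd⟩
    obtain ⟨τ, hτ, rfl⟩ := cnt_pos.1 (show 1 ≤ cnt σ.B σ.bs y by omega)
    exact hn (h.e5 hτ hd h4)
  refine { h with
    ar := ar, Hin := Hin, Cin := Cin, dgin := dgin, fin := fn
    Bin := fun τ hτ => ?_
    sr := (Nat.le_add_right _ _).trans h.sr
    pv := fun e he => ?_ }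
  · have := cin (σ.bs τ)
    have := (cnt_pos (f := σ.bs)).2 ⟨τ, hτ, rfl⟩
    by_cases h2 : 1 ≤ dgb σ.dg (σ.bs τ)
    · obtain ⟨x, hx⟩ := dgb_pos.1 h2
      exact (dgin _ _ hx).2
    · obtain ⟨e, he, e1⟩ := cnt_pos.1 (show 1 ≤ cnt σ.H σ.hd (σ.bs τ) by omega)
      exact e1 ▸ (Hin e he).2
  · obtain ⟨pv, A, a, -, c⟩ := h.pv
    obtain ⟨a1, a2, a3, a4, a5⟩ := a e he
    refine a5.imp id fun a6 => ⟨pv e, a2, a6, cnt_pos.2 ⟨e, a1, rfl⟩, a4, fun v => ?_⟩
    have := cnt_mono a3 Prod.fst v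
    have := cnt_ins_le e A Prod.fst v
    have := c v
    omega

end Iv

end EM

open EM

theorem elim : ElimStmt := by
  intro V _ _ m σ₀ Z Al hA hf hd
  have key : ∀ (n : ℕ) (σ : St V) (r r2 du : V → ℕ), ms Z σ = n → Iv m σ₀ Z Al σ r r2 du →
      ∃ (σ' : St V) (r r2 du : V → ℕ), Fl σ' ∧ Sim m σ₀ m σ' ∧ El σ₀ σ' Z Al r r2 du := by
    intro n
    induction n using Nat.strong_induction_on with
    | _ n ih =>
      intro σ r r2 du e h
      by_cases hn : Nx m σ₀ Z Al σ
      · obtain ⟨σ', r', r2', du', h', hl⟩ := hn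
        exact ih _ (e ▸ hl) σ' r' r2' du' rfl h'
      · exact ⟨σ, r, r2, du, h.fl, h.sim, h.stop hA hn⟩
  refine key _ σ₀ (fun _ => 0) (fun _ => 0) (fun _ => 0) rfl
    ⟨hf, fun _ h => h, rfl, rfl, rfl, rfl, rfl, rfl, rfl, rfl, subset_rfl, fun _ _ => rfl, rfl,
      subset_rfl, fun _ _ => rfl, subset_rfl, fun _ _ => rfl, fun _ => rfl, hd, fun _ => le_rfl,
      fun _ _ => le_rfl, fun _ => le_rfl, fun _ _ => le_rfl, by simp, by simp, subset_rfl,
      fun _ => le_rfl, fun e => {e}, ∅, fun e he => ⟨mem_singleton_self _, by simpa using he,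
        by simp, fun v => ?_, Or.inl rfl⟩, fun e _ e' _ h => by simpa using h, fun v => by simp [cnt]⟩
  have h1 := cnt_insert (notMem_empty e) Prod.fst v
  have h2 := cnt_insert (notMem_empty e) σ₀.hd v
  simp only [insert_empty_eq, cnt, filter_empty, card_empty] at h1 h2 ⊢
  omega

end Pool.Agent.MP_b9875a_co.H99.LN
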